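import Mathlib

/-!
# Rational solutions of the quantum multiplication functional equation

For every set `P` of primes with at least two elements the sequence
`f_n(q) = (q^n + 2)/(q + 2)` (`n ∈ S(P)`, and `0` elsewhere) satisfies
`f_{mn}(q) = f_m(q) f_n(q^m)`, but it is not a quotient of two polynomial solutions with
support `S(P)`.
-/

namespace Pool.Agent.Results.MP_bcdf42_nt.QuotientsIffSubsingleton

open Polynomial

/-- `S(P)`: the positive integers all of whose prime factors lie in `P`. -/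
def S (P : Set ℕ) : Set ℕ := {n | 0 < n ∧ ∀ q : ℕ, q.Prime → q ∣ n → q ∈ P}

/-- `f(q^m)` for a rational function `f(q)`: substitute in numerator and denominator. -/
noncomputable def substPow (m : ℕ) (f : RatFunc ℂ) : RatFunc ℂ :=
  algebraMap ℂ[X] (RatFunc ℂ) (expand ℂ m f.num) /
    algebraMap ℂ[X] (RatFunc ℂ) (expand ℂ m f.denom)

/-- Sequences `(f_n)_{n ≥ 1}` of rational functions with support `S(P)` satisfying the
functional equation (the value at the index `0` is irrelevant). -/
def IsRatSolution (P : Set ℕ) (f : ℕ → RatFunc ℂ) : Prop :=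
  (∀ n, 0 < n → (f n ≠ 0 ↔ n ∈ S P)) ∧
    ∀ m n, 0 < m → 0 < n → f (m * n) = f m * substPow m (f n)

/-- `Γ(P)`: sequences of polynomials with support `S(P)` satisfying the functional equation
(`expand ℂ m p` is the polynomial `p(q^m)`). -/
def IsPolySolution (P : Set ℕ) (f : ℕ → ℂ[X]) : Prop :=
  (∀ n, 0 < n → (f n ≠ 0 ↔ n ∈ S P)) ∧
    ∀ m n, 0 < m → 0 < n → f (m * n) = f m * expand ℂ m (f n)

lemma one_mem (P : Set ℕ) : 1 ∈ S P :=
  ⟨one_pos, fun _ hq h => absurd (Nat.dvd_one.mp h) hq.one_lt.ne'⟩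

lemma mul_mem {P : Set ℕ} {m n : ℕ} (hm : m ∈ S P) (hn : n ∈ S P) : m * n ∈ S P := by
  refine ⟨Nat.mul_pos hm.1 hn.1, fun q hq h => ?_⟩
  rcases (Nat.Prime.dvd_mul hq).mp h with h | h
  · exact hm.2 q hq h
  · exact hn.2 q hq h

lemma of_mul_left {P : Set ℕ} {m n : ℕ} (h : m * n ∈ S P) : m ∈ S P :=
  ⟨Nat.pos_of_ne_zero (by rintro rfl; simp [S] at h),
    fun q hq hd => h.2 q hq (hd.mul_right n)⟩

lemma of_mul_right {P : Set ℕ} {m n : ℕ} (h : m * n ∈ S P) : n ∈ S P := by
  rw [mul_comm] at h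
  exact of_mul_left h

lemma prime_mem {P : Set ℕ} {p : ℕ} (hp : p.Prime) (h : p ∈ P) : p ∈ S P :=
  ⟨hp.pos, fun q hq hd => by rwa [(Nat.prime_dvd_prime_iff_eq hq hp).mp hd]⟩

lemma pow_mem {P : Set ℕ} {p : ℕ} (h : p ∈ S P) (k : ℕ) : p ^ k ∈ S P := by
  induction k with
  | zero => simpa using one_mem P
  | succ k ih => rw [pow_succ]; exact mul_mem ih h

/-- A nonzero polynomial does not vanish outside a large disc. -/
lemma exists_radius (g : ℂ[X]) (hg : g ≠ 0) :
    ∃ R : ℝ, 1 ≤ R ∧ ∀ z : ℂ, R < ‖z‖ → g.eval z ≠ 0 := by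
  classical
  refine ⟨1 + ∑ w ∈ g.roots.toFinset, ‖w‖, ?_, fun z hz h0 => ?_⟩
  · have : 0 ≤ ∑ w ∈ g.roots.toFinset, ‖w‖ := Finset.sum_nonneg fun _ _ => norm_nonneg _
    linarith
  · have hmem : z ∈ g.roots.toFinset := by
      rw [Multiset.mem_toFinset, mem_roots hg]
      exact h0
    have := Finset.single_le_sum (f := fun w : ℂ => ‖w‖) (fun _ _ => norm_nonneg _) hmem
    linarith

section core

variable {P : Set ℕ} {g : ℕ → ℂ[X]} (hg : IsPolySolution P g)

include hg

lemma eval_mul {m n : ℕ} (hm : m ∈ S P) (hn : n ∈ S P) (y : ℂ) :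
    (g (m * n)).eval y = (g m).eval y * (g n).eval (y ^ m) := by
  rw [hg.2 m n hm.1 hn.1, Polynomial.eval_mul, expand_eval]

lemma g_one : g 1 = 1 := by
  have h := hg.2 1 1 one_pos one_pos
  have h0 : g 1 ≠ 0 := (hg.1 1 one_pos).mpr (one_mem P)
  rw [mul_one, expand_one] at h
  exact (mul_right_cancel₀ h0 (by rw [one_mul]; exact h)).symm

/-- If `g_n(x) = 0` for all large `n` holds at `x = y^m`, it holds at `y`. -/
lemma large_zero {m : ℕ} (hm : m ∈ S P) {y : ℂ} (hy : 1 < ‖y‖)
    (h : ∃ N, ∀ n ∈ S P, N ≤ n → (g n).eval (y ^ m) = 0) :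
    ∃ N, ∀ n ∈ S P, N ≤ n → (g n).eval y = 0 := by
  obtain ⟨N, hN⟩ := h
  obtain ⟨R, -, hR⟩ := exists_radius (g m) ((hg.1 m hm.1).mpr hm)
  obtain ⟨M, hM⟩ := pow_unbounded_of_one_lt R hy
  refine ⟨max N M, fun n hn hle => ?_⟩
  have h1 := eval_mul hg hm hn y
  have h2 := eval_mul hg hn hm y
  rw [mul_comm n m] at h2
  rw [hN n hn (le_trans (le_max_left _ _) hle), mul_zero] at h1
  rw [h1] at h2
  have h3 : (g m).eval (y ^ n) ≠ 0 := by
    apply hR
    rw [norm_pow]
    exact lt_of_lt_of_le hM (pow_le_pow_right₀ hy.le (le_trans (le_max_right _ _) hle))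
  exact (mul_eq_zero.mp h2.symm).resolve_right h3

lemma pow_ne {p : ℕ} (hp : p ∈ S P) {R : ℝ} (hR1 : 1 ≤ R)
    (hR : ∀ z : ℂ, R < ‖z‖ → (g p).eval z ≠ 0) (k : ℕ) :
    ∀ z : ℂ, R < ‖z‖ → (g (p ^ k)).eval z ≠ 0 := by
  induction k with
  | zero => intro z _; simp [g_one hg]
  | succ k ih =>
    intro z hz
    rw [pow_succ', eval_mul hg hp (pow_mem hp k)]
    refine mul_ne_zero (hR z hz) (ih _ ?_)
    rw [norm_pow]
    have h1 : 1 ≤ ‖z‖ := by linarith
    exact lt_of_lt_of_le hz (le_self_pow₀ h1 hp.1.ne')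

/-- Zeros at all large indices give zeros as soon as `‖y‖^n > R`. -/
lemma effective_zero {p : ℕ} (hp : p ∈ S P) (hp2 : 2 ≤ p) {R : ℝ} (hR1 : 1 ≤ R)
    (hR : ∀ z : ℂ, R < ‖z‖ → (g p).eval z ≠ 0) {y : ℂ}
    (h : ∃ N, ∀ n ∈ S P, N ≤ n → (g n).eval y = 0) {n : ℕ} (hn : n ∈ S P)
    (hy : R < ‖y‖ ^ n) : (g n).eval y = 0 := by
  obtain ⟨N, hN⟩ := h
  have h1 := eval_mul hg hn (pow_mem hp N) y
  have h2 : N ≤ n * p ^ N := by
    have : N < p ^ N := Nat.lt_pow_self (by omega)
    have h3 : 1 ≤ n := hn.1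
    nlinarith
  rw [hN _ (mul_mem hn (pow_mem hp N)) h2] at h1
  have h3 : (g (p ^ N)).eval (y ^ n) ≠ 0 := by
    apply pow_ne hg hp hR1 hR
    rwa [norm_pow]
  exact (mul_eq_zero.mp h1.symm).resolve_right h3

lemma natDegree_le {p : ℕ} (hp : p ∈ S P) (hp2 : 2 ≤ p) (k : ℕ) :
    (g (p ^ k)).natDegree ≤ (g p).natDegree * p ^ k := by
  induction k with
  | zero => simp [g_one hg]
  | succ k ih =>
    have h : g (p ^ (k + 1)) = g (p ^ k) * expand ℂ (p ^ k) (g p) := by
      rw [pow_succ]; exact hg.2 _ _ (pow_mem hp k).1 hp.1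
    rw [h]
    refine le_trans natDegree_mul_le ?_
    rw [natDegree_expand]
    calc (g (p ^ k)).natDegree + (g p).natDegree * p ^ k
        ≤ (g p).natDegree * p ^ k + (g p).natDegree * p ^ k := by omega
      _ = (g p).natDegree * (p ^ k * 2) := by ring
      _ ≤ (g p).natDegree * p ^ (k + 1) := by
          rw [pow_succ]
          exact Nat.mul_le_mul_left _ (Nat.mul_le_mul_left _ hp2)

/-- A polynomial solution with two primes in `P` cannot vanish at `-2` for all `n ≥ 2`. -/
lemma no_common_zero {p r : ℕ} (hp : p.Prime) (hr : r.Prime) (hpP : p ∈ P) (hrP : r ∈ P)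
    (hrp : r < p) (h : ∀ n ∈ S P, 2 ≤ n → (g n).eval (-2) = 0) : False := by
  classical
  have hpS := prime_mem hp hpP
  have hrS := prime_mem hr hrP
  have hp2 : 2 ≤ p := hp.two_le
  obtain ⟨R, hR1, hR⟩ := exists_radius (g p) ((hg.1 p hp.pos).mpr hpS)
  obtain ⟨c, hc⟩ : ∃ c : ℕ, R < 2 ^ (p ^ c) := by
    obtain ⟨c, hc⟩ := pow_unbounded_of_one_lt R (by norm_num : (1 : ℝ) < 2)
    exact ⟨c, lt_of_lt_of_le hc (pow_le_pow_right₀ (by norm_num)
      (Nat.lt_pow_self (by omega)).le)⟩
  set d := (g p).natDegree with hd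
  set K := d * p ^ (c + 1) with hK
  -- the exponents
  set a : ℕ → ℕ := fun b => Nat.log p (p ^ K / r ^ b) with ha
  set m : ℕ → ℕ := fun b => p ^ a b * r ^ b with hm
  have hrb : ∀ b ∈ Finset.range (K + 1), r ^ b ≤ p ^ K := by
    intro b hb
    rw [Finset.mem_range] at hb
    exact le_trans (Nat.pow_le_pow_left hrp.le b) (Nat.pow_le_pow_right hp.pos (by omega))
  have hquot : ∀ b ∈ Finset.range (K + 1), p ^ K / r ^ b ≠ 0 := by
    intro b hb
    have := Nat.div_pos (hrb b hb) (pow_pos hr.pos b)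
    omega
  have hmle : ∀ b ∈ Finset.range (K + 1), m b ≤ p ^ K := by
    intro b hb
    have h1 : p ^ a b ≤ p ^ K / r ^ b := Nat.pow_log_le_self p (hquot b hb)
    calc m b = p ^ a b * r ^ b := rfl
      _ ≤ p ^ K / r ^ b * r ^ b := Nat.mul_le_mul_right _ h1
      _ ≤ p ^ K := Nat.div_mul_le_self _ _
  have hmge : ∀ b ∈ Finset.range (K + 1), p ^ K < m b * p := by
    intro b hb
    have h1 : p ^ K / r ^ b < p ^ (a b + 1) := Nat.lt_pow_succ_log_self hp.one_lt _
    have h2 : p ^ K < p ^ (a b + 1) * r ^ b := (Nat.div_lt_iff_lt_mul (pow_pos hr.pos b)).mp h1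
    calc p ^ K < p ^ (a b + 1) * r ^ b := h2
      _ = m b * p := by simp only [hm]; ring
  have hmS : ∀ b, m b ∈ S P := fun b => mul_mem (pow_mem hpS _) (pow_mem hrS _)
  have hminj : ∀ b b', m b = m b' → b = b' := by
    intro b b' hbb
    have h1 : (m b).factorization r = b := by
      simp only [hm]
      rw [Nat.factorization_mul (pow_ne_zero _ hp.ne_zero) (pow_ne_zero _ hr.ne_zero),
        hp.factorization_pow, hr.factorization_pow]
      simp [hrp.ne']
    have h2 : (m b').factorization r = b' := by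
      simp only [hm]
      rw [Nat.factorization_mul (pow_ne_zero _ hp.ne_zero) (pow_ne_zero _ hr.ne_zero),
        hp.factorization_pow, hr.factorization_pow]
      simp [hrp.ne']
    rw [← h1, ← h2, hbb]
  -- the index
  set n := p ^ (K + c) with hn
  have hnS : n ∈ S P := pow_mem hpS _
  set T : Finset ℂ := (Finset.range (K + 1)).biUnion fun b => (nthRoots (m b) (-2 : ℂ)).toFinset
    with hT
  have hroot : ∀ b ∈ Finset.range (K + 1), ∀ y : ℂ, y ^ m b = -2 → (g n).eval y = 0 := by
    intro b hb y hy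
    have hnorm : ‖y‖ ^ m b = 2 := by
      rw [← norm_pow, hy]; simp
    have hy1 : 1 < ‖y‖ := by
      by_contra hcon
      push Not at hcon
      have := pow_le_one₀ (n := m b) (norm_nonneg y) hcon
      rw [hnorm] at this
      norm_num at this
    refine effective_zero hg hpS hp2 hR1 hR ?_ hnS ?_
    · refine large_zero hg (hmS b) hy1 ⟨2, fun k hk hk2 => ?_⟩
      rw [hy]
      exact h k hk hk2
    · have h1 : m b * p ^ c ≤ n := by
        rw [hn, pow_add]
        exact Nat.mul_le_mul_right _ (hmle b hb)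
      calc R < 2 ^ (p ^ c) := hc
        _ = ‖y‖ ^ (m b * p ^ c) := by rw [pow_mul, hnorm]
        _ ≤ ‖y‖ ^ n := pow_le_pow_right₀ hy1.le h1
  have hTsub : T ⊆ (g n).roots.toFinset := by
    intro y hy
    rw [hT, Finset.mem_biUnion] at hy
    obtain ⟨b, hb, hyb⟩ := hy
    rw [Multiset.mem_toFinset, mem_nthRoots (hmS b).1] at hyb
    rw [Multiset.mem_toFinset, mem_roots ((hg.1 n hnS.1).mpr hnS)]
    exact hroot b hb y hyb
  have hTcard : T.card = ∑ b ∈ Finset.range (K + 1), m b := by
    rw [hT, Finset.card_biUnion]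
    · refine Finset.sum_congr rfl fun b hb => ?_
      have hmb : m b ≠ 0 := (hmS b).1.ne'
      have hprim := Complex.isPrimitiveRoot_exp (m b) hmb
      rw [Multiset.toFinset_card_of_nodup (hprim.nthRoots_nodup (by norm_num)),
        hprim.card_nthRoots, if_pos]
      obtain ⟨z, hz⟩ := IsAlgClosed.exists_pow_nat_eq (-2 : ℂ) (hmS b).1
      exact ⟨z, hz⟩
    · intro b hb b' hb' hne
      rw [Function.onFun, Finset.disjoint_left]
      intro y hy hy'
      rw [Multiset.mem_toFinset, mem_nthRoots (hmS b).1] at hy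
      rw [Multiset.mem_toFinset, mem_nthRoots (hmS b').1] at hy'
      apply hne
      apply hminj
      have hnorm : ‖y‖ ^ m b = 2 := by rw [← norm_pow, hy]; simp
      have hnorm' : ‖y‖ ^ m b' = 2 := by rw [← norm_pow, hy']; simp
      have hy1 : 1 < ‖y‖ := by
        by_contra hcon
        push Not at hcon
        have := pow_le_one₀ (n := m b) (norm_nonneg y) hcon
        rw [hnorm] at this
        norm_num at this
      exact pow_right_injective₀ (by linarith) hy1.ne' (hnorm.trans hnorm'.symm)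
  have hsum : (K + 1) * p ^ K ≤ (∑ b ∈ Finset.range (K + 1), m b) * p := by
    rw [Finset.sum_mul]
    calc (K + 1) * p ^ K = ∑ b ∈ Finset.range (K + 1), p ^ K := by simp
      _ ≤ _ := Finset.sum_le_sum fun b hb => (hmge b hb).le
  have hcard : T.card ≤ (g n).natDegree :=
    le_trans (Finset.card_le_card hTsub)
      (le_trans (Multiset.toFinset_card_le _) (card_roots' _))
  have hdeg := natDegree_le hg hpS hp2 (K + c)
  rw [← hn, ← hd] at hdeg
  have hfin : (K + 1) * p ^ K ≤ d * p ^ (K + c) * p := by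
    calc (K + 1) * p ^ K ≤ (∑ b ∈ Finset.range (K + 1), m b) * p := hsum
      _ = T.card * p := by rw [hTcard]
      _ ≤ d * p ^ (K + c) * p := Nat.mul_le_mul_right _ (hcard.trans hdeg)
  have hfin2 : (K + 1) * p ^ K ≤ K * p ^ K := by
    calc (K + 1) * p ^ K ≤ d * p ^ (K + c) * p := hfin
      _ = (d * p ^ (c + 1)) * p ^ K := by ring
      _ = K * p ^ K := by rw [← hK]
  have hpos : 0 < p ^ K := pow_pos hp.pos K
  nlinarith

end core

lemma substPow_div (m : ℕ) (hm : 0 < m) (A B : ℂ[X]) (hB : B ≠ 0) :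
    substPow m (algebraMap ℂ[X] (RatFunc ℂ) A / algebraMap ℂ[X] (RatFunc ℂ) B) =
      algebraMap ℂ[X] (RatFunc ℂ) (expand ℂ m A) /
        algebraMap ℂ[X] (RatFunc ℂ) (expand ℂ m B) := by
  set f : RatFunc ℂ := algebraMap ℂ[X] (RatFunc ℂ) A / algebraMap ℂ[X] (RatFunc ℂ) B with hf
  have hd : f.denom ≠ 0 := RatFunc.denom_ne_zero f
  have hB' : algebraMap ℂ[X] (RatFunc ℂ) B ≠ 0 := RatFunc.algebraMap_ne_zero hB
  have hd' : algebraMap ℂ[X] (RatFunc ℂ) f.denom ≠ 0 := RatFunc.algebraMap_ne_zero hd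
  have h1 : f.num * B = A * f.denom := by
    have h2 := RatFunc.num_div_denom f
    rw [div_eq_iff hd'] at h2
    have h3 : f * algebraMap ℂ[X] (RatFunc ℂ) B = algebraMap ℂ[X] (RatFunc ℂ) A := by
      rw [hf, div_mul_cancel₀ _ hB']
    apply RatFunc.algebraMap_injective
    rw [map_mul, map_mul, h2, ← h3]
    ring
  unfold substPow
  rw [div_eq_div_iff (RatFunc.algebraMap_ne_zero ((expand_ne_zero hm).mpr hd))
    (RatFunc.algebraMap_ne_zero ((expand_ne_zero hm).mpr hB)), ← map_mul, ← map_mul,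
    ← map_mul, ← map_mul, h1]

/-- For every set `P` of primes with at least two elements there is a sequence of rational
functions with support `S(P)` satisfying the functional equation which is not a quotient
`F/G` with `F, G ∈ Γ(P)`. -/
lemma exists_nonquotient (P : Set ℕ) (hP : ∀ p ∈ P, p.Prime) (hP2 : P.Nontrivial) :
    ∃ f : ℕ → RatFunc ℂ, IsRatSolution P f ∧
      ¬ ∃ F G : ℕ → ℂ[X], IsPolySolution P F ∧ IsPolySolution P G ∧
        ∀ n ∈ S P, f n =
          algebraMap ℂ[X] (RatFunc ℂ) (F n) / algebraMap ℂ[X] (RatFunc ℂ) (G n) := by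
  classical
  set A : ℕ → ℂ[X] := fun n => X ^ n + C 2 with hA
  have hA0 : ∀ n, 0 < n → A n ≠ 0 := by
    intro n hn
    exact X_pow_add_C_ne_zero hn 2
  have hAexp : ∀ m n, expand ℂ m (A n) = A (m * n) := by
    intro m n
    simp [hA, pow_mul]
  have hAeval : ∀ n, (A n).eval (-2) = (-2) ^ n + 2 := by
    intro n; simp [hA]
  refine ⟨fun n => if n ∈ S P then
    algebraMap ℂ[X] (RatFunc ℂ) (A n) / algebraMap ℂ[X] (RatFunc ℂ) (A 1) else 0,
    ⟨?_, ?_⟩, ?_⟩
  · intro n hn
    by_cases h : n ∈ S P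
    · simp only [h, if_true, iff_true]
      exact div_ne_zero (RatFunc.algebraMap_ne_zero (hA0 n hn))
        (RatFunc.algebraMap_ne_zero (hA0 1 one_pos))
    · simp [h]
  · intro m n hm hn
    by_cases h : m * n ∈ S P
    · have h1 := of_mul_left h
      have h2 := of_mul_right h
      simp only [h, h1, h2, if_true]
      rw [substPow_div m hm _ _ (hA0 1 one_pos), hAexp, hAexp, mul_one]
      have h3 : algebraMap ℂ[X] (RatFunc ℂ) (A m) ≠ 0 := RatFunc.algebraMap_ne_zero (hA0 m hm)
      have h4 : algebraMap ℂ[X] (RatFunc ℂ) (A 1) ≠ 0 :=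
        RatFunc.algebraMap_ne_zero (hA0 1 one_pos)
      field_simp
    · by_cases h1 : m ∈ S P
      · have h2 : n ∉ S P := fun h2 => h (mul_mem h1 h2)
        simp only [h, h2, if_false]
        simp [substPow]
      · simp only [h, h1, if_false, zero_mul]
  · rintro ⟨F, G, -, hG, hFG⟩
    have hzero : ∀ n ∈ S P, 2 ≤ n → (G n).eval (-2) = 0 := by
      intro n hn hn2
      have h1 := hFG n hn
      simp only [hn, if_true] at h1
      have hGn : G n ≠ 0 := (hG.1 n hn.1).mpr hn
      rw [div_eq_div_iff (RatFunc.algebraMap_ne_zero (hA0 1 one_pos))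
        (RatFunc.algebraMap_ne_zero hGn), ← map_mul, ← map_mul] at h1
      have h2 := RatFunc.algebraMap_injective ℂ h1
      have h3 := congrArg (eval (-2 : ℂ)) h2
      rw [Polynomial.eval_mul, Polynomial.eval_mul, hAeval, hAeval] at h3
      have h4 : ((-2 : ℂ)) ^ n + 2 ≠ 0 := by
        intro h5
        have h6 : ‖((-2 : ℂ)) ^ n‖ = 2 := by
          rw [eq_neg_of_add_eq_zero_left h5]; simp
        rw [norm_pow] at h6
        have h7 : ‖(-2 : ℂ)‖ = 2 := by simp
        rw [h7] at h6
        have h8 : (2 : ℝ) ^ 2 ≤ 2 ^ n := pow_le_pow_right₀ (by norm_num) hn2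
        rw [h6] at h8
        norm_num at h8
      have h5 : ((-2 : ℂ)) ^ 1 + 2 = 0 := by norm_num
      rw [h5, mul_zero] at h3
      exact (mul_eq_zero.mp h3).resolve_left h4
    obtain ⟨p, hp, r, hr, hpr⟩ := hP2
    rcases lt_or_gt_of_ne hpr with h | h
    · exact no_common_zero hG (hP r hr) (hP p hp) hr hp h hzero
    · exact no_common_zero hG (hP p hp) (hP r hr) hp hr h hzero

lemma substPow_one (f : RatFunc ℂ) : substPow 1 f = f := by
  unfold substPow
  rw [expand_one, expand_one, RatFunc.num_div_denom]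

lemma mem_singleton {p : ℕ} (hp : p.Prime) {n : ℕ} :
    n ∈ S {p} ↔ n = p ^ n.factorization p := by
  constructor
  · rintro ⟨h0, h⟩
    apply Nat.eq_of_factorization_eq h0.ne' (pow_ne_zero _ hp.ne_zero)
    intro q
    rw [hp.factorization_pow]
    by_cases hq : q = p
    · simp [hq]
    · rw [Finsupp.single_apply, if_neg (Ne.symm hq)]
      by_cases hq' : q.Prime
      · exact Nat.factorization_eq_zero_of_not_dvd fun hd => hq (h q hq' hd)
      · exact Nat.factorization_eq_zero_of_not_prime n hq'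
  · intro h
    rw [h]
    exact pow_mem (P := {p}) (prime_mem hp (Set.mem_singleton p)) _

/-- The polynomial sequence supported on the powers of `p` with value `A` at `p`. -/
noncomputable def primary (p : ℕ) (A : ℂ[X]) (n : ℕ) : ℂ[X] :=
  open Classical in
  if n ∈ S {p} then ∏ j ∈ Finset.range (n.factorization p), expand ℂ (p ^ j) A else 0

lemma primary_pow {p : ℕ} (hp : p.Prime) (A : ℂ[X]) (k : ℕ) :
    primary p A (p ^ k) = ∏ j ∈ Finset.range k, expand ℂ (p ^ j) A := by
  unfold primary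
  rw [if_pos (pow_mem (P := {p}) (prime_mem hp (Set.mem_singleton p)) k),
    hp.factorization_pow, Finsupp.single_eq_same]

lemma primary_solution {p : ℕ} (hp : p.Prime) {A : ℂ[X]} (hA : A ≠ 0) :
    IsPolySolution {p} (primary p A) := by
  constructor
  · intro n _
    constructor
    · intro h
      by_contra hn
      exact h (if_neg hn)
    · intro h
      rw [(mem_singleton hp).mp h, primary_pow hp]
      exact Finset.prod_ne_zero_iff.mpr fun j _ =>
        (expand_ne_zero (pow_pos hp.pos j)).mpr hA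
  · intro m n hm hn
    by_cases h : m * n ∈ S {p}
    · obtain ⟨i, hi⟩ : ∃ i, m = p ^ i := ⟨_, (mem_singleton hp).mp (of_mul_left h)⟩
      obtain ⟨j, hj⟩ : ∃ j, n = p ^ j := ⟨_, (mem_singleton hp).mp (of_mul_right h)⟩
      rw [hi, hj, ← pow_add, primary_pow hp, primary_pow hp, primary_pow hp,
        Finset.prod_range_add, map_prod]
      congr 1
      refine Finset.prod_congr rfl fun l _ => ?_
      rw [expand_expand, pow_add]
    · have h0 : primary p A (m * n) = 0 := if_neg h
      rw [h0]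
      by_cases h1 : m ∈ S {p}
      · have h2 : n ∉ S {p} := fun h2 => h (mul_mem h1 h2)
        have : primary p A n = 0 := if_neg h2
        rw [this, map_zero, mul_zero]
      · have : primary p A m = 0 := if_neg h1
        rw [this, zero_mul]

lemma ratSolution_one {P : Set ℕ} {f : ℕ → RatFunc ℂ} (hf : IsRatSolution P f) : f 1 = 1 := by
  have h := hf.2 1 1 one_pos one_pos
  have h0 : f 1 ≠ 0 := (hf.1 1 one_pos).mpr (one_mem P)
  rw [mul_one, substPow_one] at h
  exact (mul_right_cancel₀ h0 (by rw [one_mul]; exact h)).symm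

lemma quotient_of_subsingleton (P : Set ℕ) (hP : ∀ p ∈ P, p.Prime) (hsub : P.Subsingleton)
    (f : ℕ → RatFunc ℂ) (hf : IsRatSolution P f) :
    ∃ F G : ℕ → ℂ[X], IsPolySolution P F ∧ IsPolySolution P G ∧
      ∀ n ∈ S P, f n =
        algebraMap ℂ[X] (RatFunc ℂ) (F n) / algebraMap ℂ[X] (RatFunc ℂ) (G n) := by
  classical
  rcases hsub.eq_empty_or_singleton with rfl | ⟨p, rfl⟩
  · have hS : ∀ n, n ∈ S (∅ : Set ℕ) ↔ n = 1 := by
      intro n
      constructor
      · rintro ⟨_, h⟩
        by_contra hn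
        obtain ⟨q, hq, hd⟩ := Nat.exists_prime_and_dvd hn
        exact h q hq hd
      · rintro rfl
        exact one_mem _
    have hsol : IsPolySolution (∅ : Set ℕ) (fun n => if n = 1 then (1 : ℂ[X]) else 0) := by
      constructor
      · intro n _
        rw [hS]
        by_cases h : n = 1 <;> simp [h]
      · intro m n hm hn
        by_cases h : m * n = 1
        · have h1 : m = 1 := Nat.eq_one_of_mul_eq_one_right h
          have h2 : n = 1 := Nat.eq_one_of_mul_eq_one_left h
          simp [h1, h2]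
        · by_cases h1 : m = 1
          · have h2 : n ≠ 1 := by rintro rfl; exact h (by rw [h1])
            simp [h, h2]
          · simp [h, h1]
    refine ⟨_, _, hsol, hsol, fun n hn => ?_⟩
    rw [hS] at hn
    subst hn
    simp [ratSolution_one hf]
  · have hp : p.Prime := hP p rfl
    have hpS : p ∈ S {p} := prime_mem hp rfl
    have hfp : f p ≠ 0 := (hf.1 p hp.pos).mpr hpS
    have hA : (f p).num ≠ 0 := RatFunc.num_ne_zero hfp
    have hB : (f p).denom ≠ 0 := RatFunc.denom_ne_zero _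
    refine ⟨primary p (f p).num, primary p (f p).denom, primary_solution hp hA,
      primary_solution hp hB, ?_⟩
    have key : ∀ k, f (p ^ k) = algebraMap ℂ[X] (RatFunc ℂ) (primary p (f p).num (p ^ k)) /
        algebraMap ℂ[X] (RatFunc ℂ) (primary p (f p).denom (p ^ k)) := by
      intro k
      induction k with
      | zero =>
        rw [primary_pow hp, primary_pow hp, pow_zero, ratSolution_one hf]
        simp
      | succ k ih =>
        rw [pow_succ, hf.2 _ _ (pow_pos hp.pos k) hp.pos, ih, ← pow_succ, primary_pow hp,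
          primary_pow hp, primary_pow hp, primary_pow hp, Finset.prod_range_succ,
          Finset.prod_range_succ, map_mul, map_mul]
        unfold substPow
        rw [div_mul_div_comm]
    intro n hn
    rw [(mem_singleton hp).mp hn]
    exact key _

/-- Let `P` be a set of primes. Every sequence of rational functions with support `S(P)`
satisfying the functional equation is a quotient `F/G` with `F, G ∈ Γ(P)` if and only if
`P` has at most one element. -/
theorem result (P : Set ℕ) (hP : ∀ p ∈ P, p.Prime) :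
    (∀ f : ℕ → RatFunc ℂ, IsRatSolution P f →
      ∃ F G : ℕ → ℂ[X], IsPolySolution P F ∧ IsPolySolution P G ∧
        ∀ n ∈ S P, f n =
          algebraMap ℂ[X] (RatFunc ℂ) (F n) / algebraMap ℂ[X] (RatFunc ℂ) (G n)) ↔
    P.Subsingleton := by
  constructor
  · intro h
    by_contra hsub
    rw [Set.not_subsingleton_iff] at hsub
    obtain ⟨f, hf, hno⟩ := exists_nonquotient P hP hsub
    exact hno (h f hf)
  · intro hsub f hf
    exact quotient_of_subsingleton P hP hsub f hf

end Pool.Agent.Results.MP_bcdf42_nt.QuotientsIffSubsingleton
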